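import Pool.Graph.R_pool_sql_team_ae5b0c61.H95.SqzB

set_option autoImplicit false

/-!
# The squeezing measure `G` is strongly superadditive

If `p ≤ γ` is pure and `Z = 1 ⊕ (-1)`, then the geometric mean `q` of `p` and `Z p Z` is pure,
commutes with `Z`, lies below `(p + Z p Z) / 2 ≤ (γ + Z γ Z) / 2 = γ_A ⊕ γ_B`, and costs at most as
much as `p`. So the correlations between the two groups of modes never help.
-/

namespace Pool.Agent.KS6_11.Sqz

open Matrix Finset Pool.Agent.H95.Sqz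
open scoped MatrixOrder Kronecker ComplexOrder

section
variable {m : Type} [Fintype m] [DecidableEq m]

lemma amgm2 {a b q A B C : Matrix m m ℝ} (ha : a.PosDef) (hq : q.IsHermitian)
    (h : q * a⁻¹ * q = b) (h1 : a ≤ A) (h2 : b ≤ B) (hC : C = (2⁻¹ : ℝ) • (A + B)) : q ≤ C := by
  have := ((cj ha.inv.posSemidef (ha.1.sub hq)).add (PosSemidef.add h1 h2)).smul
    (show (0 : ℝ) ≤ 2⁻¹ by norm_num)
  simp only [mul_sub, sub_mul, mul_nonsing_inv _ (ud ha), one_mul, h,
    nonsing_inv_mul_cancel_right _ _ (ud ha)] at this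
  exact pe this (by rw [hC]; module)

end

section
variable {k l : Type} [Fintype k] [DecidableEq k] [Fintype l] [DecidableEq l]

lemma super_abs {σ : Matrix k k ℝ} {τ : Matrix l l ℝ} (hσ : Fm σ) (hτ : Fm τ)
    (γ : Matrix (k ⊕ l) (k ⊕ l) ℝ) (hγ : (HS (fromBlocks σ 0 0 τ) γ).Nonempty) :
    sInf (HS σ γ.toBlocks₁₁) + sInf (HS τ γ.toBlocks₂₂) ≤ sInf (HS (fromBlocks σ 0 0 τ) γ) := by
  have lg : ∀ (a : Matrix k k ℝ) (b : Matrix l l ℝ), Real.log (D (fromBlocks a 0 0 b)) / 2 =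
      Real.log (D a) / 2 + Real.log (D b) / 2 := fun a b => by
    rw [D_blk, Real.log_mul (one_pos.trans_le (D_one a)).ne' (one_pos.trans_le (D_one b)).ne', add_div]
  have f : Fm (fromBlocks σ 0 0 τ) := ⟨by simp [fromBlocks_transpose, hσ.1, hτ.1, fromBlocks_neg], by
    simp [fromBlocks_multiply, hσ.2, hτ.2, ← fromBlocks_one, fromBlocks_neg]⟩
  refine le_csInf hγ ?_
  rintro _ ⟨p, h1, h2, rfl⟩
  set Z : Matrix (k ⊕ l) (k ⊕ l) ℝ := fromBlocks 1 0 0 (-1) with hZ
  have z1 : Z * Z = 1 := by simp [hZ, fromBlocks_multiply]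
  have z2 : Z.IsHermitian := .fromBlocks isHermitian_one (by simp) isHermitian_one.neg
  have z3 : ∀ (a : Matrix k k ℝ) (b : Matrix l l ℝ), Z * fromBlocks a 0 0 b * Z = fromBlocks a 0 0 b :=
    fun a b => by simp [hZ, fromBlocks_multiply]
  have z4 : ∀ x, Z * (Z * x) = x := fun x => by rw [← mul_assoc, z1, one_mul]
  have u : IsUnit Z := IsUnit.of_mul_eq_one _ z1
  have pd : (Z * p * Z).PosDef :=
    (cj h1.1.posSemidef z2).posDef_iff_isUnit.2 ((u.mul h1.1.isUnit).mul u)
  have pu : Pu (fromBlocks σ 0 0 τ) (Z * p * Z) := ⟨pd, by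
    rw [← z3 σ τ]
    simp only [mul_assoc, z4]
    rw [← mul_assoc p, ← mul_assoc (p * _), h1.2]⟩
  have q1 := gm_pd h1.1 pd
  have q2 := gm_eq h1.1 pd
  set q := gm p (Z * p * Z)
  have q3 := pu_gm f h1.1 pd q1 q2 (.inl ⟨h1, pu⟩)
  have q4 : q ≤ fromBlocks γ.toBlocks₁₁ 0 0 γ.toBlocks₂₂ := amgm2 h1.1 q1.1 q2 h2 (cjl h2 z2) (by
    obtain ⟨a, c, d, b, e⟩ : ∃ a c d b, γ = fromBlocks a c d b :=
      ⟨_, _, _, _, (fromBlocks_toBlocks γ).symm⟩
    rw [e]
    simp only [hZ, fromBlocks_multiply, Matrix.mul_zero, Matrix.zero_mul, add_zero, zero_add,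
      Matrix.mul_one, Matrix.one_mul, Matrix.mul_neg, Matrix.neg_mul, neg_neg, fromBlocks_add,
      fromBlocks_smul, toBlocks_fromBlocks₁₁, toBlocks_fromBlocks₂₂, add_neg_cancel, smul_zero]
    congr 1 <;> module)
  have q5 := D_gm h1.1 pd q1 q2
  have zi : Z⁻¹ = Z := inv_eq_right_inv z1
  have q6 : Z * q * Z = q := gm_uniq pd.inv (cj q1.posSemidef z2) q1.posSemidef (by
    have e : (Z * p * Z)⁻¹ = q⁻¹ * p * q⁻¹ := by
      rw [← q2, Matrix.mul_inv_rev, Matrix.mul_inv_rev, nonsing_inv_nonsing_inv _ (ud h1.1), mul_assoc]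
    conv_rhs => rw [e, ← mul_assoc, ← mul_assoc, mul_nonsing_inv _ (ud q1), one_mul,
      nonsing_inv_mul_cancel_right _ _ (ud q1)]
    rw [Matrix.mul_inv_rev, Matrix.mul_inv_rev, zi]
    simp only [mul_assoc, z4]
    rw [← mul_assoc p⁻¹, ← mul_assoc q, ← mul_assoc q, q2]
    simp only [mul_assoc, z4, z1, mul_one])
  have dz : D (Z * p * Z) = D p := by rw [D, charpoly_mul_comm, ← mul_assoc, z1, one_mul, D]
  obtain ⟨a, c, d, b, e⟩ : ∃ a c d b, q = fromBlocks a c d b := ⟨_, _, _, _, (fromBlocks_toBlocks q).symm⟩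
  rw [e] at q1 q3 q4 q5 q6
  simp only [hZ, fromBlocks_multiply, Matrix.mul_zero, Matrix.zero_mul, add_zero, zero_add,
    Matrix.mul_one, Matrix.one_mul, Matrix.mul_neg, Matrix.neg_mul, fromBlocks_inj, neg_eq_self,
    neg_zero] at q6
  obtain rfl : c = 0 := Matrix.ext fun i j => neg_eq_self.1 (congrFun₂ q6.2.1 i j)
  obtain rfl : d = 0 := Matrix.ext fun i j => neg_eq_self.1 (congrFun₂ q6.2.2.1 i j)
  have q7 := q3.2
  simp only [fromBlocks_multiply, Matrix.mul_zero, Matrix.zero_mul, add_zero, zero_add,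
    fromBlocks_inj] at q7
  refine (add_le_add (csInf_le (HS_bdd _ _) ⟨a, ⟨q1.submatrix Sum.inl_injective, q7.1⟩,
    PosSemidef.submatrix q4 Sum.inl, rfl⟩) (csInf_le (HS_bdd _ _) ⟨b, ⟨q1.submatrix
    Sum.inr_injective, q7.2.2.2⟩, PosSemidef.submatrix q4 Sum.inr, rfl⟩)).trans ?_
  rw [← lg]
  rw [dz] at q5
  gcongr
  · exact one_pos.trans_le (D_one _)
  · exact abs_le_of_sq_le_sq' (by rwa [sq, sq]) (zero_le_one.trans (D_one _)) |>.2

end

/-- The reduced matrix of the modes `f 0, …, f (a - 1)` of an `n`-mode matrix. -/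
def marg {a n : ℕ} (f : Fin a → Fin n) (γ : Mat n) : Mat a :=
  γ.submatrix (Prod.map f id) (Prod.map f id)

lemma marg_sig {a n : ℕ} {f : Fin a → Fin n} (hf : Function.Injective f) :
    marg f (sig n) = sig a := by
  ext ⟨i, s⟩ ⟨j, t⟩
  simp [marg, sig, one_apply, hf.eq_iff]

lemma marg_marg {a b n : ℕ} (f : Fin a → Fin b) (g : Fin b → Fin n) (γ : Mat n) :
    marg f (marg g γ) = marg (g ∘ f) γ := by
  ext ⟨i, s⟩ ⟨j, t⟩
  rfl

lemma cov_marg {a n : ℕ} {f : Fin a → Fin n} (hf : Function.Injective f) {γ : Mat n}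
    (h : IsCov γ) : IsCov (marg f γ) := by
  refine ⟨?_, ?_⟩
  · ext i j
    have := congrFun₂ h.1 (Prod.map f id i) (Prod.map f id j)
    simpa only [marg, transpose_apply, submatrix_apply] using this
  · have e : (marg f γ).map Complex.ofReal - Complex.I • (sig a).map Complex.ofReal =
        (γ.map Complex.ofReal - Complex.I • (sig n).map Complex.ofReal).submatrix
          (Prod.map f id : Ix a → Ix n) (Prod.map f id : Ix a → Ix n) := by
      rw [← marg_sig hf]
      ext i j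
      simp only [marg, Matrix.sub_apply, Matrix.smul_apply, Matrix.map_apply, submatrix_apply]
    rw [e]
    exact h.2.submatrix _

/-- The labels of a system made of two groups of modes. -/
def lab {a b n : ℕ} (e : Fin a ⊕ Fin b ≃ Fin n) : Ix a ⊕ Ix b ≃ Ix n :=
  (Equiv.sumProdDistrib _ _ _).symm.trans (e.prodCongr (Equiv.refl _))

lemma lab_inl {a b n : ℕ} (e : Fin a ⊕ Fin b ≃ Fin n) (x : Ix a) :
    lab e (Sum.inl x) = (e (Sum.inl x.1), x.2) := rfl

lemma lab_inr {a b n : ℕ} (e : Fin a ⊕ Fin b ≃ Fin n) (x : Ix b) :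
    lab e (Sum.inr x) = (e (Sum.inr x.1), x.2) := rfl

lemma sig_lab {a b n : ℕ} (e : Fin a ⊕ Fin b ≃ Fin n) :
    (sig n).submatrix (lab e) (lab e) = fromBlocks (sig a) 0 0 (sig b) := by
  ext (⟨i, s⟩ | ⟨i, s⟩) (⟨j, t⟩ | ⟨j, t⟩) <;> simp [sig, lab_inl, lab_inr, one_apply]

lemma blk₁₁ {a b n : ℕ} (e : Fin a ⊕ Fin b ≃ Fin n) (γ : Mat n) :
    marg (e ∘ Sum.inl) γ = (γ.submatrix (lab e) (lab e)).toBlocks₁₁ := by
  ext i j
  rfl

lemma blk₂₂ {a b n : ℕ} (e : Fin a ⊕ Fin b ≃ Fin n) (γ : Mat n) :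
    marg (e ∘ Sum.inr) γ = (γ.submatrix (lab e) (lab e)).toBlocks₂₂ := by
  ext i j
  rfl

lemma super_two {a b n : ℕ} (e : Fin a ⊕ Fin b ≃ Fin n) {γ : Mat n} (h : IsCov γ) :
    G (marg (e ∘ Sum.inl) γ) + G (marg (e ∘ Sum.inr) γ) ≤ G γ := by
  have k := HS_re (lab e) (sig n) γ
  have k2 : (HS (fromBlocks (sig a) 0 0 (sig b)) (γ.submatrix (lab e) (lab e))).Nonempty := by
    rw [← sig_lab e, k]
    exact HS_ne h
  have := super_abs (fm_sig a) (fm_sig b) (γ.submatrix (lab e) (lab e)) k2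
  rw [← sig_lab e, k, ← blk₁₁, ← blk₂₂, ← G_eq, ← G_eq, ← G_eq] at this
  exact this

lemma add_two {a b n : ℕ} (e : Fin a ⊕ Fin b ≃ Fin n) {γ : Mat n} (h : IsCov γ)
    (h0 : ∀ x y s t, γ (e (Sum.inl x), s) (e (Sum.inr y), t) = 0) :
    G γ = G (marg (e ∘ Sum.inl) γ) + G (marg (e ∘ Sum.inr) γ) := by
  have k := HS_re (lab e) (sig n) γ
  have hb : γ.submatrix (lab e) (lab e) =
      fromBlocks (marg (e ∘ Sum.inl) γ) 0 0 (marg (e ∘ Sum.inr) γ) := by
    ext (⟨i, s⟩ | ⟨i, s⟩) (⟨j, t⟩ | ⟨j, t⟩)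
    · rfl
    · exact h0 _ _ _ _
    · exact (congrFun₂ h.1 _ _).symm.trans (h0 _ _ _ _)
    · rfl
  have := add_abs (fm_sig a) (fm_sig b)
    (HS_ne (cov_marg (e.injective.comp Sum.inl_injective) h))
    (HS_ne (cov_marg (e.injective.comp Sum.inr_injective) h))
  rw [← sig_lab e, ← hb, k, ← G_eq, ← G_eq, ← G_eq] at this
  exact this

lemma exists_compl {a n : ℕ} {f : Fin a → Fin n} (hf : Function.Injective f) :
    ∃ (b : ℕ) (e : Fin a ⊕ Fin b ≃ Fin n), ∀ x, e (Sum.inl x) = f x := by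
  classical
  refine ⟨Fintype.card ((Set.range f)ᶜ : Set (Fin n)),
    ((Equiv.ofInjective f hf).sumCongr (Fintype.equivFin _).symm).trans
      (Equiv.Set.sumCompl (Set.range f)), fun x => ?_⟩
  simp

theorem super_many : ∀ (k : ℕ) (n : ℕ) (γ : Mat n), IsCov γ → ∀ (a : Fin k → ℕ)
    (f : (j : Fin k) → Fin (a j) → Fin n),
    Function.Injective (fun p : (j : Fin k) × Fin (a j) => f p.1 p.2) →
    ∑ j, G (marg (f j) γ) ≤ G γ ∧
    ((Function.Surjective (fun p : (j : Fin k) × Fin (a j) => f p.1 p.2) ∧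
      ∀ i j, i ≠ j → ∀ x y s t, γ (f i x, s) (f j y, t) = 0) → G γ = ∑ j, G (marg (f j) γ)) := by
  intro k
  induction k with
  | zero =>
    intro n γ h a f hf
    have h0 : 0 ≤ G γ := by
      rw [G_eq]
      exact le_csInf (HS_ne h) (by
        rintro _ ⟨p, -, -, rfl⟩
        exact div_nonneg (Real.log_nonneg (D_one p)) two_pos.le)
    refine ⟨by simpa using h0, fun hs => ?_⟩
    have hn : IsEmpty (Fin n) := ⟨fun x => by
      obtain ⟨⟨j, _⟩, _⟩ := hs.1 x
      exact j.elim0⟩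
    have hn0 : n = 0 := by
      rcases Nat.eq_zero_or_pos n with h | h
      · exact h
      · exact (hn.false ⟨0, h⟩).elim
    subst hn0
    simp only [univ_eq_empty, sum_empty]
    refine le_antisymm ?_ h0
    have h1 : Pu (sig 0) γ := ⟨(cov_pd h).1, by
      ext ⟨i, s⟩ j
      exact i.elim0⟩
    rw [G_eq]
    refine csInf_le (HS_bdd _ _) ⟨γ, h1, le_rfl, ?_⟩
    have : D γ = 1 := by
      rw [D]
      have : γ.charpoly = 1 := by
        rw [Matrix.charpoly]
        exact det_isEmpty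
      rw [this]
      simp
    rw [this]
    simp
  | succ k ih =>
    intro n γ h a f hf
    have h0 : Function.Injective (f 0) := fun x y hxy => by
      have := @hf ⟨0, x⟩ ⟨0, y⟩ hxy
      simpa using this
    obtain ⟨b, e, he⟩ := exists_compl h0
    have he' : e ∘ Sum.inl = f 0 := funext he
    have hg : ∀ (j : Fin k) (x : Fin (a j.succ)), ∃ y : Fin b, e (Sum.inr y) = f j.succ x := by
      intro j x
      obtain ⟨z | z, hz⟩ := e.surjective (f j.succ x)
      · exfalso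
        rw [he] at hz
        have := @hf ⟨0, z⟩ ⟨j.succ, x⟩ hz
        have h2 := congrArg Sigma.fst this
        exact Fin.succ_ne_zero j h2.symm
      · exact ⟨z, hz⟩
    choose f' hf' using hg
    set γ' := marg (e ∘ Sum.inr) γ with hγ'
    have hc : IsCov γ' := cov_marg (e.injective.comp Sum.inr_injective) h
    have hinj : Function.Injective (fun p : (j : Fin k) × Fin (a j.succ) => f' p.1 p.2) := by
      rintro ⟨i, x⟩ ⟨j, y⟩ hxy
      have h1 : f i.succ x = f j.succ y := by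
        rw [← hf', ← hf']
        exact congrArg (fun z => e (Sum.inr z)) hxy
      have := @hf ⟨i.succ, x⟩ ⟨j.succ, y⟩ h1
      have h2 : i = j := Fin.succ_injective _ (congrArg Sigma.fst this)
      subst h2
      simpa using this
    have hm : ∀ j : Fin k, marg (f' j) γ' = marg (f j.succ) γ := fun j => by
      rw [hγ', marg_marg]
      congr 1
      funext x
      exact hf' j x
    obtain ⟨i1, i2⟩ := ih b γ' hc (fun j => a j.succ) f' hinj
    refine ⟨?_, fun hs => ?_⟩
    · rw [Fin.sum_univ_succ, ← he']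
      simp only [hm] at i1
      exact (add_le_add_right i1 _).trans (super_two e h)
    · obtain ⟨s1, s2⟩ := hs
      have hsurj : Function.Surjective (fun p : (j : Fin k) × Fin (a j.succ) => f' p.1 p.2) := by
        intro y
        obtain ⟨⟨j, x⟩, hx⟩ := s1 (e (Sum.inr y))
        simp only at hx
        induction j using Fin.cases with
        | zero =>
          rw [← he] at hx
          have := e.injective hx
          simp at this
        | succ j =>
          refine ⟨⟨j, x⟩, ?_⟩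
          rw [← hf'] at hx
          simpa using e.injective hx
      have hz : ∀ i j : Fin k, i ≠ j → ∀ x y s t, γ' (f' i x, s) (f' j y, t) = 0 := by
        intro i j hij x y s t
        have := s2 i.succ j.succ (fun hh => hij (Fin.succ_injective _ hh)) x y s t
        rw [← hf', ← hf'] at this
        exact this
      have hz0 : ∀ x y s t, γ (e (Sum.inl x), s) (e (Sum.inr y), t) = 0 := by
        intro x y s t
        obtain ⟨⟨j, z⟩, hz⟩ := hsurj y
        simp only at hz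
        rw [he, ← hz, hf']
        exact s2 0 j.succ (Fin.succ_ne_zero j).symm x z s t
      rw [add_two e h hz0, Fin.sum_univ_succ, he', ← hγ', i2 ⟨hsurj, hz⟩]
      simp only [hm]

/-- The values `∑_{i ≤ n} log sᵢ(S)` over the symplectic matrices `S` with `γ ≥ SᵀS`. -/
def costs {n : ℕ} (γ : Mat n) : Set ℝ :=
  {r | ∃ S : Mat n, Sᵀ * sig n * S = sig n ∧ (γ - Sᵀ * S).PosSemidef ∧
    r = ∑ i with i.val < n, Real.log (sv S i)}

lemma costs_eq {n : ℕ} (γ : Mat n) : costs γ = HS (sig n) γ := by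
  have c : Fintype.card (Ix n) = 2 * n := by simp [mul_comm]
  have f := fm_sig n
  refine Set.ext fun r => ⟨?_, ?_⟩
  · rintro ⟨S, h1, h2, rfl⟩
    exact ⟨_, pu_sp f h1, h2, top f (pu_sp f h1) n c⟩
  · rintro ⟨p, h1, h2, rfl⟩
    have r := h1.sqrt f
    have t : (CFC.sqrt p)ᵀ = CFC.sqrt p := r.1.1
    have k : (CFC.sqrt p)ᵀ * sig n * CFC.sqrt p = sig n := by rw [t, r.2]
    have := top f (pu_sp f k) n c
    refine ⟨_, k, by rwa [t, ss h1.1.posSemidef], Eq.trans ?_ this.symm⟩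
    rw [t, ss h1.1.posSemidef]

lemma isGLB_costs {n : ℕ} {γ : Mat n} (h : IsCov γ) :
    (costs γ).Nonempty ∧ IsGLB (costs γ) (G γ) := by
  rw [costs_eq, G_eq]
  exact ⟨HS_ne h, isGLB_csInf (HS_ne h) (HS_bdd _ _)⟩

lemma psdc {k l : Type} [Fintype k] [Fintype l] {a : Matrix k k ℂ} {b : Matrix l l ℂ}
    (ha : a.PosSemidef) (hb : b.PosSemidef) : (fromBlocks a 0 0 b).PosSemidef := by
  refine .of_dotProduct_mulVec_nonneg (.fromBlocks ha.1 (by simp) hb.1) fun v => ?_
  rw [← Sum.elim_comp_inl_inr v, fromBlocks_mulVec, Function.star_sumElim,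
    sumElim_dotProduct_sumElim]
  simp only [Sum.elim_comp_inl, Sum.elim_comp_inr, zero_mulVec, add_zero, zero_add]
  exact add_nonneg (ha.dotProduct_mulVec_nonneg _) (hb.dotProduct_mulVec_nonneg _)

lemma sig_add (a b : ℕ) :
    sig (a + b) = (fromBlocks (sig a) 0 0 (sig b)).submatrix (split a b) (split a b) := by
  ext ⟨i, s⟩ ⟨j, t⟩
  obtain ⟨i | i, rfl⟩ := finSumFinEquiv.surjective i <;>
  obtain ⟨j | j, rfl⟩ := finSumFinEquiv.surjective j <;>
  simp [sig, split, one_apply, -finSumFinEquiv_apply_left, -finSumFinEquiv_apply_right]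

lemma cov_dsum {a b : ℕ} {A : Mat a} {B : Mat b} (hA : IsCov A) (hB : IsCov B) :
    IsCov (dsum A B) := by
  refine ⟨?_, ?_⟩
  · rw [dsum, transpose_submatrix, fromBlocks_transpose, hA.1, hB.1]
    simp
  · have e : (dsum A B).map Complex.ofReal - Complex.I • (sig (a + b)).map Complex.ofReal =
        (fromBlocks (A.map Complex.ofReal - Complex.I • (sig a).map Complex.ofReal) 0 0
          (B.map Complex.ofReal - Complex.I • (sig b).map Complex.ofReal)).submatrix
          (split a b) (split a b) := by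
      rw [sig_add, dsum]
      ext i j
      simp only [Matrix.sub_apply, Matrix.smul_apply, Matrix.map_apply, submatrix_apply]
      rcases split a b i with x | x <;> rcases split a b j with y | y <;> simp
    rw [e]
    exact (psdc hA.2 hB.2).submatrix _

end Pool.Agent.KS6_11.Sqz
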